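import Mathlib

set_option autoImplicit false

/-!
# Propagation times of minimum zero forcing sets of the six-dimensional hypercube

`PT(Q_6) ≥ 18 > 16 = 2 ^ (6 - 2)`: an explicit minimum zero forcing set of `Q_6` (32 vertices) with
propagation time 18. The lower bound `Z(Q_d) ≥ 2 ^ (d - 1)` is proved with the signed adjacency
operator of the hypercube.
-/

namespace Pool.Agent.Results.MP_d17388_co.PropagationEighteen

open Finset

/-- The hypercube `Q_d`: vectors of `d` bits, adjacent when they differ in exactly one
coordinate. -/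
def cube (d : ℕ) : SimpleGraph (Fin d → Bool) where
  Adj x y := (univ.filter fun i => x i ≠ y i).card = 1
  symm := ⟨fun x y h => by
    have e : (univ.filter fun i => y i ≠ x i) = univ.filter fun i => x i ≠ y i := by
      ext i; simp [ne_comm]
    rw [e]; exact h⟩
  loopless := ⟨fun x h => by simp at h⟩

/-- The vertices that can be filled from `S` by repeated use of the colour change rule: a filled
vertex `v` whose only neighbour that is not known to be filled is `w` forces `w`. -/
inductive Filled {V : Type} (G : SimpleGraph V) (S : Set V) : V → Prop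
  | init (v : V) : v ∈ S → Filled G S v
  | force (v w : V) : Filled G S v → G.Adj v w → (∀ u, G.Adj v u → u ≠ w → Filled G S u) →
      Filled G S w

/-- `S` is a zero forcing set of `G`: repeated use of the rule fills all vertices. -/
def IsZeroForcing {V : Type} (G : SimpleGraph V) (S : Set V) : Prop := ∀ v, Filled G S v

/-- `S` is a minimum zero forcing set of `G`. -/
def IsMinimum {V : Type} (G : SimpleGraph V) (S : Finset V) : Prop :=
  IsZeroForcing G (S : Set V) ∧ ∀ T : Finset V, IsZeroForcing G (T : Set V) → S.card ≤ T.card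

/-- One round of simultaneous forces: all vertices outside `S` that are the only neighbour outside
`S` of some vertex of `S` are added. -/
def round {V : Type} (G : SimpleGraph V) (S : Set V) : Set V :=
  S ∪ {w | w ∉ S ∧ ∃ v ∈ S, G.Adj v w ∧ ∀ u, G.Adj v u → u ∉ S → u = w}

/-- `t` is the propagation time of `S`: the least number of rounds after which all vertices are
filled. -/
def IsPt {V : Type} (G : SimpleGraph V) (S : Set V) (t : ℕ) : Prop :=
  IsLeast {t : ℕ | (round G)^[t] S = Set.univ} t

/-- The propagation times of the minimum zero forcing sets of `G`. -/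
def times {V : Type} (G : SimpleGraph V) : Set ℕ :=
  {t | ∃ S : Finset V, IsMinimum G S ∧ IsPt G (S : Set V) t}

/-! ### Neighbours in the hypercube -/

/-- the `i`-th neighbour -/
def flip {d : ℕ} (x : Fin d → Bool) (i : Fin d) : Fin d → Bool := Function.update x i (!x i)

theorem flip_flip {d : ℕ} (x : Fin d → Bool) (i : Fin d) : flip (flip x i) i = x := by
  funext j
  unfold flip
  by_cases h : j = i
  · subst h; simp
  · simp [Function.update_of_ne h]

theorem flip_comm {d : ℕ} (x : Fin d → Bool) {i j : Fin d} (h : i ≠ j) :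
    flip (flip x i) j = flip (flip x j) i := by
  unfold flip
  rw [Function.update_of_ne h.symm, Function.update_of_ne h, Function.update_comm h]

theorem adj_iff {d : ℕ} (x y : Fin d → Bool) : (cube d).Adj x y ↔ ∃ i, y = flip x i := by
  show (univ.filter fun i => x i ≠ y i).card = 1 ↔ _
  rw [Finset.card_eq_one]
  constructor
  · rintro ⟨i, hi⟩
    refine ⟨i, ?_⟩
    funext j
    have hj := Finset.ext_iff.1 hi j
    simp only [mem_filter, mem_univ, true_and, mem_singleton] at hj
    unfold flip
    by_cases h : j = i
    · subst h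
      have h1 := hj.2 rfl
      rw [Function.update_self]
      cases hx : x j <;> cases hy : y j <;> simp_all
    · rw [Function.update_of_ne h]
      by_contra h2
      exact h (hj.1 (fun h3 => h2 h3.symm))
  · rintro ⟨i, rfl⟩
    refine ⟨i, ?_⟩
    ext j
    simp only [mem_filter, mem_univ, true_and, mem_singleton]
    unfold flip
    by_cases h : j = i
    · subst h; simp
    · simp [h]

/-! ### The lower bound for zero forcing sets -/

/-- sign of the edge from `x` in direction `i` -/
def sg {d : ℕ} (i : Fin d) (x : Fin d → Bool) : ℝ :=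
  ∏ j ∈ univ.filter (fun j => j < i), (if x j then (-1 : ℝ) else 1)

theorem sg_sq {d : ℕ} (i : Fin d) (x : Fin d → Bool) : sg i x * sg i x = 1 := by
  unfold sg
  rw [← Finset.prod_mul_distrib]
  apply Finset.prod_eq_one
  intro j _
  split_ifs <;> norm_num

theorem sg_flip_of_le {d : ℕ} {i k : Fin d} (h : i ≤ k) (x : Fin d → Bool) :
    sg i (flip x k) = sg i x := by
  unfold sg
  apply Finset.prod_congr rfl
  intro j hj
  have hj' : j < i := by simpa using hj
  have hne : j ≠ k := by
    intro e; subst e; exact absurd hj' (not_lt.2 h)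
  unfold flip
  rw [Function.update_of_ne hne]

theorem sg_flip_of_lt {d : ℕ} {i k : Fin d} (h : k < i) (x : Fin d → Bool) :
    sg i (flip x k) = - sg i x := by
  unfold sg
  have hk : k ∈ univ.filter (fun j => j < i) := by simpa using h
  rw [← Finset.mul_prod_erase _ _ hk, ← Finset.mul_prod_erase (univ.filter (fun j => j < i)) _ hk]
  have e1 : ∏ j ∈ (univ.filter (fun j => j < i)).erase k, (if flip x k j then (-1 : ℝ) else 1) =
      ∏ j ∈ (univ.filter (fun j => j < i)).erase k, (if x j then (-1 : ℝ) else 1) := by
    apply Finset.prod_congr rfl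
    intro j hj
    have hne : j ≠ k := (Finset.mem_erase.1 hj).1
    unfold flip
    rw [Function.update_of_ne hne]
  rw [e1]
  have e2 : (if flip x k k then (-1 : ℝ) else 1) = - (if x k then (-1 : ℝ) else 1) := by
    unfold flip
    rw [Function.update_self]
    cases x k <;> simp
  rw [e2]
  ring

/-- the signed adjacency operator -/
noncomputable def op (d : ℕ) : ((Fin d → Bool) → ℝ) →ₗ[ℝ] ((Fin d → Bool) → ℝ) where
  toFun f x := ∑ i, sg i x * f (flip x i)
  map_add' f g := by
    funext x
    simp only [Pi.add_apply, mul_add, Finset.sum_add_distrib]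
  map_smul' c f := by
    funext x
    simp only [Pi.smul_apply, smul_eq_mul, RingHom.id_apply, Finset.mul_sum]
    exact Finset.sum_congr rfl (fun i _ => by ring)

theorem op_apply {d : ℕ} (f : (Fin d → Bool) → ℝ) (x : Fin d → Bool) :
    op d f x = ∑ i, sg i x * f (flip x i) := rfl

theorem op_op {d : ℕ} (f : (Fin d → Bool) → ℝ) : op d (op d f) = (d : ℝ) • f := by
  funext x
  rw [op_apply]
  have h1 : ∀ i : Fin d, sg i x * op d f (flip x i) =
      ∑ j, sg i x * sg j (flip x i) * f (flip (flip x i) j) := by
    intro i
    rw [op_apply, Finset.mul_sum]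
    exact Finset.sum_congr rfl (fun j _ => by ring)
  rw [Finset.sum_congr rfl (fun i _ => h1 i)]
  set T : Fin d → Fin d → ℝ := fun i j => sg i x * sg j (flip x i) * f (flip (flip x i) j) with hT
  have hdiag : ∀ i, T i i = f x := by
    intro i
    simp only [hT]
    rw [flip_flip, sg_flip_of_le le_rfl, sg_sq, one_mul]
  have hanti : ∀ i j, i ≠ j → T i j = - T j i := by
    intro i j hij
    simp only [hT]
    rw [flip_comm x hij]
    rcases lt_or_gt_of_ne hij with h | h
    · rw [sg_flip_of_lt h, sg_flip_of_le h.le]; ring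
    · rw [sg_flip_of_le h.le, sg_flip_of_lt h]; ring
  have hsplit : ∑ i, ∑ j, T i j = ∑ i, T i i + ∑ i, ∑ j, (if i = j then 0 else T i j) := by
    rw [← Finset.sum_add_distrib]
    apply Finset.sum_congr rfl
    intro i _
    have e : ∀ j, T i j = (if i = j then T i i else 0) + (if i = j then 0 else T i j) := by
      intro j
      split_ifs with h
      · subst h; ring
      · ring
    rw [Finset.sum_congr rfl (fun j _ => e j), Finset.sum_add_distrib, Finset.sum_ite_eq]
    simp
  have hzero : ∑ i, ∑ j, (if i = j then 0 else T i j) = 0 := by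
    have e : ∑ i, ∑ j, (if i = j then 0 else T i j) = - ∑ i, ∑ j, (if i = j then 0 else T i j) := by
      conv_lhs => rw [Finset.sum_comm]
      rw [← Finset.sum_neg_distrib]
      apply Finset.sum_congr rfl
      intro i _
      rw [← Finset.sum_neg_distrib]
      apply Finset.sum_congr rfl
      intro j _
      by_cases h : i = j
      · subst h; simp
      · rw [if_neg h, if_neg (Ne.symm h), hanti j i (Ne.symm h)]
    linarith
  show ∑ i, ∑ j, T i j = _
  rw [hsplit, hzero, add_zero, Finset.sum_congr rfl (fun i _ => hdiag i)]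
  simp

theorem zero_of_filled {d : ℕ} {S : Set (Fin d → Bool)} {f : (Fin d → Bool) → ℝ} {c : ℝ}
    (hf : ∀ x, op d f x = c * f x) (hS : ∀ x ∈ S, f x = 0) {v : Fin d → Bool}
    (hv : Filled (cube d) S v) : f v = 0 := by
  induction hv with
  | init v h => exact hS v h
  | force v w _ hadj _ ihv ihu =>
    obtain ⟨i, rfl⟩ := (adj_iff v w).1 hadj
    have h := hf v
    rw [ihv, mul_zero, op_apply, Finset.sum_eq_single i] at h
    · have hs : sg i v ≠ 0 := by
        intro h0
        have := sg_sq i v
        rw [h0] at this
        norm_num at this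
      rcases mul_eq_zero.1 h with h | h
      · exact absurd h hs
      · exact h
    · intro j _ hj
      have hne : flip v j ≠ flip v i := by
        intro e
        have e1 := congrFun e j
        unfold flip at e1
        rw [Function.update_self, Function.update_of_ne hj] at e1
        cases hvj : v j <;> simp_all
      rw [ihu (flip v j) ((adj_iff v _).2 ⟨j, rfl⟩) hne, mul_zero]
    · intro h0
      exact absurd (Finset.mem_univ i) h0

theorem card_ge {d : ℕ} (hd : 1 ≤ d) (T : Finset (Fin d → Bool))
    (hT : IsZeroForcing (cube d) (T : Set (Fin d → Bool))) : 2 ^ d ≤ 2 * T.card := by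
  classical
  set c : ℝ := Real.sqrt d with hc
  have hc2 : c * c = d := Real.mul_self_sqrt (Nat.cast_nonneg d)
  have hcpos : 0 < c := Real.sqrt_pos.2 (by exact_mod_cast hd)
  let P : ((Fin d → Bool) → ℝ) →ₗ[ℝ] ((Fin d → Bool) → ℝ) := op d + c • LinearMap.id
  let M : ((Fin d → Bool) → ℝ) →ₗ[ℝ] ((Fin d → Bool) → ℝ) := op d - c • LinearMap.id
  let R : ((Fin d → Bool) → ℝ) →ₗ[ℝ] (T → ℝ) := LinearMap.funLeft ℝ ℝ (fun t : T => (t : Fin d → Bool))
  let Φ : ((Fin d → Bool) → ℝ) →ₗ[ℝ] ((T → ℝ) × (T → ℝ)) := (R.comp P).prod (R.comp M)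
  have hinj : Function.Injective Φ := by
    rw [injective_iff_map_eq_zero]
    intro f hf
    have h1 : R (P f) = 0 := congrArg Prod.fst hf
    have h2 : R (M f) = 0 := congrArg Prod.snd hf
    have hP : ∀ x, P f x = op d f x + c * f x := fun x => rfl
    have hM : ∀ x, M f x = op d f x - c * f x := fun x => rfl
    have hopP : ∀ x, op d (P f) x = c * P f x := by
      intro x
      have e : op d (P f) = op d (op d f) + c • op d f := by
        show op d (op d f + c • f) = _
        rw [map_add, map_smul]
      rw [e, op_op, hP]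
      simp only [Pi.add_apply, Pi.smul_apply, smul_eq_mul]
      rw [← hc2]; ring
    have hopM : ∀ x, op d (M f) x = (-c) * M f x := by
      intro x
      have e : op d (M f) = op d (op d f) - c • op d f := by
        show op d (op d f - c • f) = _
        rw [map_sub, map_smul]
      rw [e, op_op, hM]
      simp only [Pi.sub_apply, Pi.smul_apply, smul_eq_mul]
      rw [← hc2]; ring
    have z1 : ∀ x, P f x = 0 := fun x =>
      zero_of_filled hopP (fun y hy => congrFun h1 ⟨y, hy⟩) (hT x)
    have z2 : ∀ x, M f x = 0 := fun x =>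
      zero_of_filled hopM (fun y hy => congrFun h2 ⟨y, hy⟩) (hT x)
    funext x
    have h3 := z1 x
    have h4 := z2 x
    rw [hP] at h3
    rw [hM] at h4
    have h5 : c * f x = 0 := by linarith
    rcases mul_eq_zero.1 h5 with h | h
    · exact absurd h hcpos.ne'
    · exact h
  have hle := LinearMap.finrank_le_finrank_of_injective hinj
  rw [Module.finrank_prod, Module.finrank_fintype_fun_eq_card, Module.finrank_fintype_fun_eq_card,
    Fintype.card_coe] at hle
  simp only [Fintype.card_fun, Fintype.card_bool, Fintype.card_fin] at hle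
  omega

/-! ### The zero forcing set of `Q_6` -/

/-- the round in which a vertex is filled -/
def tb : List ℕ := [17, 5, 0, 0, 12, 0, 17, 0, 0, 0, 0, 0, 18, 0, 2, 16, 0, 16, 0, 0, 18, 0, 8, 0,
  0, 4, 3, 15, 0, 17, 0, 9, 0, 12, 0, 6, 0, 11, 0, 0, 0, 0, 1, 13, 0, 0, 0, 0, 17, 13, 7, 0, 13, 0,
  17, 10, 0, 14, 14, 14, 18, 12, 0, 16]

/-- the round in which `x` is filled -/
def lev (x : Fin 6 → Bool) : ℕ :=
  tb.getD ((x 0).toNat + 2 * (x 1).toNat + 4 * (x 2).toNat + 8 * (x 3).toNat + 16 * (x 4).toNat +
    32 * (x 5).toNat) 0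

theorem levA : ∀ w : Fin 6 → Bool, lev w = 0 ∨ ∃ i, lev (flip w i) + 1 ≤ lev w ∧
    ∀ j, j ≠ i → lev (flip (flip w i) j) + 1 ≤ lev w := by
  decide +kernel

theorem levB : ∀ w : Fin 6 → Bool, ∀ i, lev w = 0 ∨ lev w ≤ lev (flip w i) + 1 ∨
    ∃ j, j ≠ i ∧ lev w ≤ lev (flip (flip w i) j) + 1 := by
  decide +kernel

theorem lev_le : ∀ w : Fin 6 → Bool, lev w ≤ 18 := by decide +kernel

theorem lev_top : ∃ w : Fin 6 → Bool, lev w = 18 := by decide +kernel

/-- the zero forcing set -/
def S0 : Finset (Fin 6 → Bool) := univ.filter fun w => lev w = 0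

theorem S0_card : S0.card = 32 := by decide +kernel

theorem flip_ne {d : ℕ} (v : Fin d → Bool) {i j : Fin d} (h : j ≠ i) : flip v j ≠ flip v i := by
  intro e
  have e1 := congrFun e j
  unfold flip at e1
  rw [Function.update_self, Function.update_of_ne h] at e1
  cases hvj : v j <;> simp_all

theorem round_lev (t : ℕ) : round (cube 6) {w | lev w ≤ t} = {w | lev w ≤ t + 1} := by
  ext w
  constructor
  · rintro (h | ⟨h, v, hv, hadj, hu⟩)
    · exact Nat.le_succ_of_le h
    · obtain ⟨i, hi⟩ := (adj_iff w v).1 hadj.symm
      subst hi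
      have h' : ¬ lev w ≤ t := h
      have hv' : lev (flip w i) ≤ t := hv
      show lev w ≤ t + 1
      rcases levB w i with h0 | h0 | ⟨j, hj, h0⟩
      · omega
      · omega
      · have h1 : lev (flip (flip w i) j) ≤ t := by
          by_contra h2
          have h3 := hu (flip (flip w i) j) ((adj_iff _ _).2 ⟨j, rfl⟩) h2
          have h4 : flip (flip w i) j = flip (flip w i) i := by rw [h3, flip_flip]
          exact flip_ne _ hj h4
        omega
  · intro h
    have h' : lev w ≤ t + 1 := h
    by_cases h0 : lev w ≤ t
    · exact Or.inl h0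
    · right
      refine ⟨h0, ?_⟩
      rcases levA w with h1 | ⟨i, h1, h2⟩
      · omega
      · refine ⟨flip w i, ?_, ?_, ?_⟩
        · show lev (flip w i) ≤ t
          omega
        · exact ((adj_iff w _).2 ⟨i, rfl⟩).symm
        · intro u hu hut
          obtain ⟨j, rfl⟩ := (adj_iff _ u).1 hu
          by_cases hj : j = i
          · subst hj; exact flip_flip w j
          · exfalso
            apply hut
            show lev (flip (flip w i) j) ≤ t
            have := h2 j hj
            omega

theorem rounds (t : ℕ) : (round (cube 6))^[t] (S0 : Set (Fin 6 → Bool)) = {w | lev w ≤ t} := by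
  induction t with
  | zero =>
    ext w
    simp [S0]
  | succ n ih => rw [Function.iterate_succ_apply', ih, round_lev]

theorem filled (n : ℕ) : ∀ w : Fin 6 → Bool, lev w ≤ n →
    Filled (cube 6) (S0 : Set (Fin 6 → Bool)) w := by
  induction n with
  | zero =>
    intro w h
    exact Filled.init w (by simp [S0]; omega)
  | succ n ih =>
    intro w h
    rcases levA w with h1 | ⟨i, h1, h2⟩
    · exact Filled.init w (by simp [S0, h1])
    · refine Filled.force (flip w i) w (ih _ (by omega)) ((adj_iff w _).2 ⟨i, rfl⟩).symm ?_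
      intro u hu hne
      obtain ⟨j, rfl⟩ := (adj_iff _ u).1 hu
      have hj : j ≠ i := by
        rintro rfl
        exact hne (flip_flip w j)
      exact ih _ (by have := h2 j hj; omega)

theorem eighteen : 18 ∈ times (cube 6) := by
  refine ⟨S0, ⟨fun v => filled 18 v (lev_le v), ?_⟩, ?_, ?_⟩
  · intro T hT
    have h := card_ge (by norm_num) T hT
    rw [S0_card]
    norm_num at h
    omega
  · show (round (cube 6))^[18] (S0 : Set (Fin 6 → Bool)) = Set.univ
    rw [rounds]
    ext w
    simp [lev_le w]
  · intro t ht
    have ht' : (round (cube 6))^[t] (S0 : Set (Fin 6 → Bool)) = Set.univ := ht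
    rw [rounds] at ht'
    obtain ⟨w, hw⟩ := lev_top
    have h1 : w ∈ {w : Fin 6 → Bool | lev w ≤ t} := by rw [ht']; trivial
    have h2 : lev w ≤ t := h1
    omega

/-- `Q_6` has a minimum zero forcing set with propagation time `18 > 2 ^ (6 - 2)`. So it is not true
that for all `d ≥ 2` the least propagation time of a minimum zero forcing set of `Q_d` is `1`, the
greatest one is `2 ^ (d - 2)` and all numbers between them are propagation times of minimum zero
forcing sets. -/
theorem result : 18 ∈ times (cube 6) ∧
    ¬ ∀ d : ℕ, 2 ≤ d → IsLeast (times (cube d)) 1 ∧ IsGreatest (times (cube d)) (2 ^ (d - 2)) ∧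
      ∀ k : ℕ, 1 ≤ k → k ≤ 2 ^ (d - 2) → k ∈ times (cube d) := by
  refine ⟨eighteen, fun h => ?_⟩
  have h1 := (h 6 (by norm_num)).2.1.2 eighteen
  norm_num at h1

end Pool.Agent.Results.MP_d17388_co.PropagationEighteen
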